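import Mathlib
import Pool.Agent.H47.GeneralBounds

/-!
`M_H(n) ≤ C (log n)^2 ex(n, H - e)` for every graph `H` with at least three edges and every edge.
-/

set_option autoImplicit false

namespace Pool.Agent.Results.MP_9c00c0_co.PolylogBound

open Pool.Agent.H47.BootstrapTime

/-- For every finite graph `H` with at least three edges there is a constant `C` such that for all
`n ≥ 2` and all edges `e` of `H` the maximum running time of the `H`-process on `n` vertices is at
most `C (log n)^2 ex(n, H - e)`. -/
theorem result : ∀ (W : Type) (_ : Finite W) (H : SimpleGraph W), 3 ≤ H.edgeSet.ncard →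
    ∃ C : ℝ, ∀ n : ℕ, 2 ≤ n → ∀ e ∈ H.edgeSet,
      (maxTime H n : ℝ) ≤
        C * Real.log n ^ 2 * (SimpleGraph.extremalNumber n (H.deleteEdges {e}) : ℝ) := by
  classical
  intro W hW H h3
  have : Fintype W := Fintype.ofFinite W
  apply Pool.Agent.H47.GeneralBounds.polylog H
  rw [← SimpleGraph.coe_edgeFinset, Set.ncard_coe_finset] at h3
  exact le_of_le_of_eq h3 (Pool.Agent.H47.ProcessBound.card_edge_inst _ _ _)

end Pool.Agent.Results.MP_9c00c0_co.PolylogBound
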