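import Mathlib
import Pool.Agent.H47.GeneralBounds

/-!
`M_H(n) = O(g(n))` for every majorant `g` of `ex(n, H - e)` of regular superlinear growth.
-/

set_option autoImplicit false

namespace Pool.Agent.Results.MP_9c00c0_co.RegularGrowth

open Pool.Agent.H47.BootstrapTime

/-- Let `H` be a finite graph with at least three edges, `e` an edge of `H`, and `g` a function
with `ex(m, H - e) ≤ g(m)` for all `m` and `g(m) (n/m)^{1+δ} ≤ A g(n)` for all `1 ≤ m ≤ n`, where
`δ > 0` and `A` are constants. Then `M_H(n) ≤ C g(n)` for all `n`, for some constant `C`. -/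
theorem result : ∀ (W : Type) (_ : Finite W) (H : SimpleGraph W), 3 ≤ H.edgeSet.ncard →
    ∀ e ∈ H.edgeSet, ∀ (g : ℕ → ℝ) (A δ : ℝ), 0 < δ →
      (∀ m : ℕ, (SimpleGraph.extremalNumber m (H.deleteEdges {e}) : ℝ) ≤ g m) →
      (∀ m n : ℕ, 1 ≤ m → m ≤ n → g m * ((n : ℝ) / m) ^ (1 + δ) ≤ A * g n) →
      ∃ C : ℝ, ∀ n : ℕ, (maxTime H n : ℝ) ≤ C * g n := by
  classical
  intro W hW H h3 e he g A δ hδ hex hreg
  have : Fintype W := Fintype.ofFinite W
  refine Pool.Agent.H47.GeneralBounds.regular H ?_ e he g A δ hδ hex hreg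
  rw [← SimpleGraph.coe_edgeFinset, Set.ncard_coe_finset] at h3
  exact le_of_le_of_eq h3 (Pool.Agent.H47.ProcessBound.card_edge_inst _ _ _)

end Pool.Agent.Results.MP_9c00c0_co.RegularGrowth
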